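import Pool.Agent.H64.NB.Main

/-!
`C^0`-flat `S^3`-bundles with all Pontryagin numbers over nilpotent bases.

**Why the numbers are `e` and `p_1`.** The homeomorphisms of `S^3` of the form
`(w, t) ↦ (w + u, t + f(w))` on `S^3 \ R = ℂ × ℝ/ℤ`, with `u ∈ ℂ` and `f : ℂ → ℝ/ℤ` continuous, which
fix the great circle `R` pointwise, form a topological group which is homotopy equivalent to the
group of the rotations about `R`, by `(u, f(w)) ↦ (s u, f(s w))`, `0 ≤ s ≤ 1`. So the
bundle is the sphere bundle of `ℂ ⊕ L` for an oriented plane bundle `L`, whose Euler class is the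
class `x_A` of the central extension of the group by the lifts. So `e = 0` and `p_1 = x_A²`.

**Proof.** See `OneBase` and `Pool.Agent.H64.NB.Hol`, `Pool.Agent.H64.NB.Cyc`. The seminorm:
polynomial growth gives Følner sets, and the cone over a cycle with the apex averaged over a
Følner set has the boundary `z - z'` with `z'` of small norm. Over the torus `T^4` the same idea gives
all even Pontryagin numbers (`torBundle` in `Pool.Agent.H64.NB.Tor`): the translations by `1` and by `i` of
the plane `ℂ`, and the rotations by `- v Re w` and by `- Im w` turns, commute.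
-/

namespace Pool.Agent.Results.MP_0baafd_gt.NilpotentBases

open Pool.Agent.H79.FB Pool.Agent.H64.NB Pool.Agent.H8.SV

/-- There are a finitely generated nilpotent group `Γ` and an integral 4-cycle `z` of `Γ` with
vanishing `l^1`-seminorm such that for every integer `v` there is a `C^0`-flat `S^3`-bundle with a
holonomy `Γ → Homeo_0(S^3)` with Euler number `0` and Pontryagin number `v` over `z`. The
holonomy fixes the great circle `R` pointwise, and on `S^3 \ R = ℂ × ℝ/ℤ` it acts by
`(w, t) ↦ (w + u, t + f(w))`. -/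
theorem result :
    ∃ (Γ : Type) (_ : Group Γ) (z : Chain ℤ Γ 4), Group.IsNilpotent Γ ∧ Group.FG Γ ∧
      bdry ℤ Γ 3 z = 0 ∧
      (∀ ε : ℝ, 0 < ε → ∃ b : Chain ℝ Γ 5, norm1 (toReal z + bdry ℝ Γ 4 b) < ε) ∧
      ∀ v : ℤ, ∃ E : FlatS3 Γ, E.euler z = 0 ∧ E.pontryagin z = v ∧
        (∀ g t, E.hol g (circ t) = circ t) ∧
        ∃ (u : Γ → ℂ) (f : Γ → C(ℂ, ℝ)), ∀ g w t, E.hol g (pt w t) = pt (w + u g) (t + f g w) :=
  ⟨Nil, inferInstance, ch4 cyc, inferInstance, inferInstance, bdry_cyc, nil_small, nil_bundles⟩

end Pool.Agent.Results.MP_0baafd_gt.NilpotentBases
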