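import Pool.Agent.H64.NB.Main

/-!
One group and one integral 4-cycle over which the `C^0`-flat `S^3`-bundles have all pairs of Euler
and Pontryagin numbers.

**Why the numbers are `e` and `p_1`.** The topological group of the orientation preserving
homeomorphisms of `S^3` which preserve the great circle `R` and its orientation is homotopy
equivalent to the torus of the rotations about `R` and along `R` (Hatcher). So the `S^3`-bundle
of `E : FlatS3 Γ` over a closed oriented 4-manifold `M` with a map `M → BΓ` is the sphere bundle of
the sum of two oriented plane bundles, whose Euler classes `x_R` and `x_A` are those of the circle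
bundle with the fibre `R` and of the flat bundle with the fibre `S^3 \ R ≃ S^1`, and these
classes are represented by the cocycles `E.xR` and `E.xA` of the lifts. So
`e = x_R x_A` and `p_1 = x_R² + x_A²`.

**Proof.** The group is the free product of two groups `π_1(Σ_2 × Σ_k)` and of the nilpotent group
`Nil = ℤ⁴ ⋊ ℤ²`.

* Over `Σ_2 × Σ_k` there are flat bundles with `(e, p_1) = (- 2 N, 0)` for all `N` (`FixedBase`), and
  the fibrewise join of two of Milnor's flat plane bundles with `(e, p_1) = (1, 0)`. The relators of
  the lifts are turned into values of the cocycles on the fundamental cycle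
  `∑ [P_i | a_i] + [P_i a_i | b_i] - [P_i a_i b_i a_i⁻¹ | a_i] - [P_(i+1) | b_i]` of a surface group
  and on the cross product of two of them.
* The group `Nil` acts on `S^3 \ R = ℂ × ℝ/ℤ` by the translations of the plane by `e = (i, j) ∈ ℤ²`
  and by rotations: `n e` acts by `(c, τ) ↦ (c + e, τ + R_n(c + e))`, where `R_n` is linear in
  `n ∈ ℤ⁴`, quadratic in `c`, and depends on two integral parameters `q` and `β`. The lifts are
  multiplicative up to the cocycle `- R_{e n'}(e)`. The explicit 4-cycle `cyc` has at most 108
  simplices, and the value of the square of the cocycle on it is `q² + 2 β`.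
-/

namespace Pool.Agent.Results.MP_0baafd_gt.OneBase

open Pool.Agent.H64.NB Pool.Agent.H8.SV

/-- There are a group `Γ` and an integral 4-cycle `z` of `Γ` such that for all integers `u`
and `v` there is a `C^0`-flat `S^3`-bundle with a holonomy `Γ → Homeo_0(S^3)` preserving a great circle
whose Euler number over `z` is `u` and whose Pontryagin number over `z` is `v`. -/
theorem result : ∃ (Γ : Type) (_ : Group Γ) (z : Chain ℤ Γ 4), bdry ℤ Γ 3 z = 0 ∧
    ∀ u v : ℤ, ∃ E : FlatS3 Γ, E.euler z = u ∧ E.pontryagin z = v := by
  obtain ⟨Γ, hΓ, z, hz, h⟩ := real_univ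
  exact ⟨Γ, hΓ, z, hz, fun u v => h (u, v) (Set.mem_univ _)⟩

end Pool.Agent.Results.MP_0baafd_gt.OneBase
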