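import Pool.Agent.H8.SV.Main

namespace Pool.Agent.Results.MP_0baafd_gt.SmallFlatBases

open Pool.Agent.H8.SV

universe u v

/-- Simplicial volume of flat bases. For every group `G`:

(1) for every degree `n + 1`, the comparison map from bounded to ordinary real cohomology of `G`
vanishes if and only if all integral classes of `G` come from classes of `l^1`-seminorm at most
`C` on finitely presented groups mapping to `G`, for one constant `C`, and then `C` can be taken
arbitrarily small;

(2) in degree 4 the same two conditions are equivalent to: every flat `G`-bundle over a closed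
oriented 4-manifold is bordant, as a flat `G`-bundle, to one whose base has simplicial volume at
most `C`, for one constant `C`; and then `C` can be taken arbitrarily small. -/
theorem result (G : Type u) [Group G] :
    (∀ n : ℕ, [ComparisonZero G n,
      ∃ C : ℝ, ∀ z : Chain ℤ G (n + 1), IsCycle z → FPRep G z C,
      ∀ ε > 0, ∀ z : Chain ℤ G (n + 1), IsCycle z → FPRep G z ε].TFAE) ∧
    (∀ 𝓜 : FourManifolds.{v}, [ComparisonZero G 3,
      ∃ C : ℝ, ∀ E : FlatBundle 𝓜 G, ∃ E' : FlatBundle 𝓜 G,
        Bordant E E' ∧ 𝓜.vol E'.base ≤ C,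
      ∀ ε > 0, ∀ E : FlatBundle 𝓜 G, ∃ E' : FlatBundle 𝓜 G,
        Bordant E E' ∧ 𝓜.vol E'.base ≤ ε].TFAE) :=
  ⟨fun n => fp_tfae G n, fun 𝓜 => bundle_tfae 𝓜 G⟩

end Pool.Agent.Results.MP_0baafd_gt.SmallFlatBases
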