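import Pool.Agent.H14.SB.Main

/-!
MP_0baafd_gt: every oriented `S^3`-bundle over a closed oriented 4-manifold is bordant to a `C^0`-flat
one whose base has simplicial volume at most `ε`, for every `ε > 0`.

**Proof.** By Mather and Thurston the bundle is bordant to a flat one over a connected base `M₁` with
the holonomy `ρ₁ : π_1(M₁) → G = Homeo_0(S^3)`. Its class is an integral 4-cycle `z` of the discrete
group `G`. As `H^4_b(G; ℝ) = 0` (Monod and Nariman), the `l^1`-seminorm of `z` is zero (Hahn-Banach
duality), so `z + ∂ w` has norm `< ε` for a real chain `w`. The multiplication table of the finitely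
many elements of `G` in `z` and `w` is lifted to a finitely presented group `Γ → G`. By Thom and
surgery the lifted class is that of a closed manifold `M'` with `π_1(M') = Γ` and the signature of `M₁`,
and by Gromov's mapping theorem its simplicial volume is `< ε`. The flat bundle of `π_1(M') → G` is
bordant to the one over `M₁` because `Ω_4(BG) = Ω_4 ⊕ H_4(G; ℤ)`.
-/

namespace Pool.Agent.Results.MP_0baafd_gt.SmallSimplicialVolume

open Pool.Agent.H14.SB

/-- Given the published theorems listed in `Published`, let `ε > 0` and let `ξ` be an oriented
`S^3`-bundle over a closed oriented smooth 4-manifold `M`. Then `ξ` is bordant to a `C^0`-flat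
`S^3`-bundle `ξ'` over a closed connected oriented smooth 4-manifold `M'` with simplicial volume at most
`ε`. -/
theorem result (P : Published) (ε : ℝ) (hε : 0 < ε) (M : OMfd) (ξ : S3Bundle M.X) :
    ∃ (M' : OMfd) (ξ' : S3Bundle M'.X), PathConnectedSpace M'.X ∧ ξ'.IsFlat ∧
      BundleBordant M ξ M' ξ' ∧ simplicialVolume M' ≤ ε :=
  main P ε hε M ξ

end Pool.Agent.Results.MP_0baafd_gt.SmallSimplicialVolume
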